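import Pool.Agent.Helper73.MI.Stmts

/-!
# Uniform positivity of the second derivative (project MP_a2630c_MI, module POS)
-/

open MeasureTheory Set Metric Real Filter Topology
open scoped RealInnerProductSpace ENNReal
open Pool.Agent.Helper16.Buoy (E cap IsEllipsoid Homothetic buoyancyBody)
open Pool.Agent.Helper73.HV (supp)
open Pool.Agent.Helper73.LR (CB vol GG Sol aff)
open Pool.Agent.Helper73.SY (CS Dat sg)
open Pool.Agent.Helper79.SY (WW AA cut)

namespace Pool.Agent.Helper82.MI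

open Pool.Agent.Helper73.MI

variable {n : ℕ} {K : Set (E n)} {δ lam : ℝ} {X : E n → E n} {t : E n → ℝ}

/-- The support function is positively homogeneous, read off the support points. -/
theorem X_smul (h : Dat K δ lam X t) {u : E n} (hu : u ≠ 0) {c : ℝ} (hc : 0 < c) :
    X (c • u) = X u := by
  have hcu : c • u ≠ 0 := smul_ne_zero hc.ne' hu
  have h1 : inner ℝ (c • u) (X u) ≤ supp K (c • u) :=
    Pool.Agent.Helper65.LR.le_supp h.cs.cb.comp (h.Xmem u hu) (c • u)
  have h2 : inner ℝ u (X (c • u)) ≤ supp K u :=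
    Pool.Agent.Helper65.LR.le_supp h.cs.cb.comp (h.Xmem _ hcu) u
  have h3 := h.Xsup _ hcu
  have h4 := h.Xsup _ hu
  rw [← h3, inner_smul_left, inner_smul_left] at h1
  simp only [conj_trivial] at h1
  have h5 : inner ℝ u (X u) ≤ (inner ℝ u (X (c • u)) : ℝ) := le_of_mul_le_mul_left h1 hc
  exact h.Xuni u hu _ (h.Xmem _ hcu) (le_antisymm h2 (by rw [← h4]; exact h5))

theorem diffAt (h : DatC K δ lam X t) {u : E n} (hu : u ≠ 0) : DifferentiableAt ℝ X u :=
  (h.XC1 u hu).differentiableAt one_ne_zero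

/-- The derivative is homogeneous of degree `-1`. -/
theorem fderiv_smul' (h : DatC K δ lam X t) {u : E n} (hu : u ≠ 0) (z : E n) {c : ℝ}
    (hc : 0 < c) : fderiv ℝ X (c • u) z = c⁻¹ • fderiv ℝ X u z := by
  have hcu : c • u ≠ 0 := smul_ne_zero hc.ne' hu
  have h1 : HasFDerivAt (fun v : E n => X (c • v)) ((fderiv ℝ X (c • u)).comp
      (c • ContinuousLinearMap.id ℝ (E n))) u :=
    HasFDerivAt.comp (g := X) (f := fun v : E n => c • v) u (diffAt h hcu).hasFDerivAt
      ((hasFDerivAt_id u).const_smul c)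
  have h2 : HasFDerivAt (fun v : E n => X (c • v)) (fderiv ℝ X u) u := by
    refine (diffAt h hu).hasFDerivAt.congr_of_eventuallyEq ?_
    filter_upwards [isOpen_compl_singleton.mem_nhds (show u ∈ ({0}ᶜ : Set (E n)) from hu)]
      with v hv
    exact X_smul h.dat hv hc
  have h3 := h1.unique h2
  have h4 : c • fderiv ℝ X (c • u) z = fderiv ℝ X u z := by
    rw [← h3]
    simp
  rw [← h4, smul_smul, inv_mul_cancel₀ hc.ne', one_smul]

/-- The derivative vanishes along the ray. -/
theorem fderiv_self (h : DatC K δ lam X t) {u : E n} (hu : u ≠ 0) : fderiv ℝ X u u = 0 := by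
  have h0 : (1 : ℝ) • u = u := one_smul ℝ u
  have hd : HasDerivAt (fun s : ℝ => s • u) u 1 := by
    have := (hasDerivAt_id (1 : ℝ)).smul_const u
    simpa using this
  have h1 : HasDerivAt (fun s : ℝ => X (s • u)) (fderiv ℝ X u u) 1 := by
    have hX : HasFDerivAt X (fderiv ℝ X u) ((1 : ℝ) • u) := by
      rw [h0]; exact (diffAt h hu).hasFDerivAt
    exact hX.comp_hasDerivAt (1 : ℝ) hd
  have h2 : HasDerivAt (fun s : ℝ => X (s • u)) 0 1 := by
    refine (hasDerivAt_const (1 : ℝ) (X u)).congr_of_eventuallyEq ?_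
    filter_upwards [lt_mem_nhds (show (0 : ℝ) < 1 from one_pos)] with s hs
    exact X_smul h.dat hu hs
  exact h1.unique h2

theorem normed_dir {u : E n} (hu : u ≠ 0) : ‖(‖u‖⁻¹ • u)‖ = 1 ∧
    0 < (inner ℝ u (‖u‖⁻¹ • u) : ℝ) := by
  have hun : 0 < ‖u‖ := norm_pos_iff.2 hu
  constructor
  · rw [norm_smul, norm_inv, norm_norm, inv_mul_cancel₀ hun.ne']
  · rw [inner_smul_right, real_inner_self_eq_norm_sq]
    positivity

/-- Symmetry of the derivative. -/
theorem fderiv_symm (hhes : S_hes) (h : DatC K δ lam X t) (u z z' : E n) (hu : u ≠ 0) :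
    inner ℝ z (fderiv ℝ X u z') = (inner ℝ z' (fderiv ℝ X u z) : ℝ) := by
  obtain ⟨he, hpe⟩ := normed_dir hu
  obtain ⟨g, hg⟩ := hhes h _ u he hpe
  have h1 := hg z z'
  have h2 := hg z' z
  have h3 : (fun x : E n => inner ℝ z (x - g) * inner ℝ z' (x - g) : E n → ℝ) =
      fun x => inner ℝ z' (x - g) * inner ℝ z (x - g) := by
    funext x; ring
  rw [h3, ← h2] at h1
  exact mul_left_cancel₀ h.dat.cs.lpos.ne' h1

theorem fderiv_orth (hhes : S_hes) (h : DatC K δ lam X t) (u z : E n) (hu : u ≠ 0) :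
    inner ℝ u (fderiv ℝ X u z) = (0 : ℝ) := by
  rw [fderiv_symm hhes h u u z hu, fderiv_self h hu, inner_zero_right]

/-- Positivity in directions orthogonal to `u`. -/
theorem fderiv_pos (hsec : S_sec) (hhes : S_hes) (h : DatC K δ lam X t) (u z : E n)
    (hu : u ≠ 0) (hz : z ≠ 0) (huz : inner ℝ u z = (0 : ℝ)) :
    0 < (inner ℝ z (fderiv ℝ X u z) : ℝ) := by
  obtain ⟨he, hpe⟩ := normed_dir hu
  obtain ⟨g, hg⟩ := hhes h _ u he hpe
  have h1 := hg z z
  set φ : E n → ℝ := fun x => inner ℝ z (x - g) * inner ℝ z (x - g) with hφ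
  have hφc : Continuous φ := by fun_prop
  obtain ⟨J, _, hJ, _, hJp⟩ := hsec h φ hφc
  have h2 := hJ _ u he hpe
  have hpos : 0 < J u := by
    apply hJp (fun x _ => mul_self_nonneg _) u hu
    obtain ⟨x, hx, hxu⟩ := Pool.Agent.Helper79.SY.exists_int_level h.dat.cs.cb (h.dat.tlo u hu)
      (h.dat.tup u hu)
    by_cases hx0 : (inner ℝ z (x - g) : ℝ) = 0
    · have hc : ContinuousAt (fun s : ℝ => x + s • z) 0 := by fun_prop
      have h3 := hc.tendsto
      simp only [zero_smul, add_zero] at h3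
      obtain ⟨s, hs, hs0⟩ := (((h3.mono_left nhdsWithin_le_nhds).eventually
        (isOpen_interior.mem_nhds hx)).and (self_mem_nhdsWithin (a := (0 : ℝ))
        (s := Ioi 0))).exists
      have hs0' : 0 < s := hs0
      refine ⟨x + s • z, hs, ?_, ?_⟩
      · rw [inner_add_right, inner_smul_right, huz, hxu]
        ring
      · have h4 : (inner ℝ z (x + s • z - g) : ℝ) = s * inner ℝ z z := by
          have h5 : x + s • z - g = (x - g) + s • z := by abel
          rw [h5, inner_add_right, hx0, inner_smul_right, zero_add]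
        have h6 : (0 : ℝ) < inner ℝ z z := real_inner_self_pos.2 hz
        show 0 < (inner ℝ z (x + s • z - g) : ℝ) * inner ℝ z (x + s • z - g)
        rw [h4]
        positivity
    · refine ⟨x, hx, hxu, ?_⟩
      exact mul_self_pos.2 hx0
  have h7 : lam * inner ℝ z (fderiv ℝ X u z) = J u := by rw [h1, h2]
  have h8 : 0 < lam * (inner ℝ z (fderiv ℝ X u z) : ℝ) := by rw [h7]; exact hpos
  exact (mul_pos_iff_of_pos_left h.dat.cs.lpos).1 h8

/-- The derivative is continuous outside the origin. -/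
theorem fderiv_cont (h : DatC K δ lam X t) : ContinuousOn (fderiv ℝ X) {0}ᶜ := by
  have h1 : ContDiffOn ℝ 1 X {0}ᶜ := fun u hu => (h.XC1 u hu).contDiffWithinAt
  exact h1.continuousOn_fderiv_of_isOpen isOpen_compl_singleton le_rfl

/-- (POS) Uniform positivity of the second derivative. -/
theorem pos (hsec : S_sec) (hhes : S_hes) : S_pos := by
  intro n K δ lam X t h
  refine ⟨fun u z z' hu => fderiv_symm hhes h u z z' hu, fun u z hu => fderiv_orth hhes h u z hu,
    fun u z c hu hc => fderiv_smul' h hu z hc, ?_⟩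
  set T : Set (E n × E n) := {p | ‖p.1‖ = 1 ∧ ‖p.2‖ = 1 ∧ inner ℝ p.1 p.2 = (0 : ℝ)} with hT
  have hTc : IsCompact T := by
    apply isCompact_of_isClosed_isBounded
    · apply IsClosed.inter (isClosed_eq (by fun_prop) continuous_const)
      exact IsClosed.inter (isClosed_eq (by fun_prop) continuous_const)
        (isClosed_eq (by fun_prop) continuous_const)
    · apply (isBounded_iff_forall_norm_le).2
      refine ⟨1, fun p hp => ?_⟩
      rw [Prod.norm_def]
      exact max_le hp.1.le hp.2.1.le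
  have hne : ∀ p ∈ T, p.1 ≠ 0 ∧ p.2 ≠ 0 := by
    intro p hp
    constructor
    · intro h0
      have := hp.1
      rw [h0, norm_zero] at this
      exact zero_ne_one this
    · intro h0
      have := hp.2.1
      rw [h0, norm_zero] at this
      exact zero_ne_one this
  have hfc : ContinuousOn (fun p : E n × E n => (inner ℝ p.2 (fderiv ℝ X p.1 p.2) : ℝ)) T := by
    have h1 : ContinuousOn (fun p : E n × E n => fderiv ℝ X p.1) T :=
      (fderiv_cont h).comp continuous_fst.continuousOn fun p hp => (hne p hp).1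
    exact continuous_snd.continuousOn.inner (h1.clm_apply continuous_snd.continuousOn)
  have key : ∃ c : ℝ, 0 < c ∧ ∀ p ∈ T, c ≤ (inner ℝ p.2 (fderiv ℝ X p.1 p.2) : ℝ) := by
    rcases T.eq_empty_or_nonempty with h0 | h0
    · exact ⟨1, one_pos, fun p hp => by rw [h0] at hp; exact hp.elim⟩
    · obtain ⟨p, hp, hmin⟩ := hTc.exists_isMinOn h0 hfc
      exact ⟨_, fderiv_pos hsec hhes h p.1 p.2 (hne p hp).1 (hne p hp).2 hp.2.2,
        fun q hq => hmin hq⟩
  obtain ⟨c, hc, hcT⟩ := key
  refine ⟨c, hc, fun u z hu huz => ?_⟩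
  by_cases hz : z = 0
  · subst hz
    simp
  · have hzn : 0 < ‖z‖ := norm_pos_iff.2 hz
    have h1 := hcT (u, ‖z‖⁻¹ • z) ⟨hu, by
      show ‖(‖z‖⁻¹ • z)‖ = 1
      rw [norm_smul, norm_inv, norm_norm, inv_mul_cancel₀ hzn.ne'], by
      show inner ℝ u (‖z‖⁻¹ • z) = (0 : ℝ)
      rw [inner_smul_right, huz, mul_zero]⟩
    have h2 : (inner ℝ (‖z‖⁻¹ • z) (fderiv ℝ X u (‖z‖⁻¹ • z)) : ℝ) =
        (‖z‖ ^ 2)⁻¹ * inner ℝ z (fderiv ℝ X u z) := by
      rw [map_smul, inner_smul_left, inner_smul_right, conj_trivial]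
      rw [sq, mul_inv]
      ring
    have h3 : c ≤ (‖z‖ ^ 2)⁻¹ * inner ℝ z (fderiv ℝ X u z) := by rw [← h2]; exact h1
    have h4 := mul_le_mul_of_nonneg_left h3 (sq_nonneg ‖z‖)
    rw [← mul_assoc, mul_inv_cancel₀ (by positivity), one_mul] at h4
    linarith

end Pool.Agent.Helper82.MI
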